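import Pool.Agent.H893R5.HO.PMg

/-!
ROOM HS (helper515): `PM4` is a quadratic form in the bivector `α ∧ β`.
-/

set_option autoImplicit false

namespace H515HS

open HopfPP HopfG

variable {R : Type*} [CommRing R]

theorem dt6_add_left (a b c : V6 R) : dt6 (a + b) c = dt6 a c + dt6 b c := by
  simp only [dt6, dt, Prod.fst_add, Prod.snd_add, Pi.add_apply]; ring

theorem dt6_add_right (a b c : V6 R) : dt6 a (b + c) = dt6 a b + dt6 a c := by
  simp only [dt6, dt, Prod.fst_add, Prod.snd_add, Pi.add_apply]; ring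

theorem dt6_sub_left (a b c : V6 R) : dt6 (a - b) c = dt6 a c - dt6 b c := by
  simp only [dt6, dt, Prod.fst_sub, Prod.snd_sub, Pi.sub_apply]; ring

theorem dt6_sub_right (a b c : V6 R) : dt6 a (b - c) = dt6 a b - dt6 a c := by
  simp only [dt6, dt, Prod.fst_sub, Prod.snd_sub, Pi.sub_apply]; ring

theorem dt6_smul_left (r : R) (a c : V6 R) : dt6 (r • a) c = r * dt6 a c := by
  simp only [dt6, dt, Prod.smul_fst, Prod.smul_snd, Pi.smul_apply, smul_eq_mul]; ring

theorem dt6_smul_right (r : R) (a c : V6 R) : dt6 a (r • c) = r * dt6 a c := by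
  simp only [dt6, dt, Prod.smul_fst, Prod.smul_snd, Pi.smul_apply, smul_eq_mul]; ring

theorem dt6_comm (a b : V6 R) : dt6 a b = dt6 b a := by
  simp only [dt6, dt]; ring

theorem V6_ext {a b : V6 R} (h0 : a.1 0 = b.1 0) (h1 : a.1 1 = b.1 1) (h2 : a.1 2 = b.1 2)
    (h3 : a.2 0 = b.2 0) (h4 : a.2 1 = b.2 1) (h5 : a.2 2 = b.2 2) : a = b := by
  refine Prod.ext ?_ ?_
  · funext i; fin_cases i
    · exact h0
    · exact h1
    · exact h2
  · funext i; fin_cases i
    · exact h3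
    · exact h4
    · exact h5

theorem cx6_add_left (a b c : V6 R) : cx6 (a + b) c = cx6 a c + cx6 b c := by
  apply V6_ext <;> simp [cx6, cx] <;> ring

theorem cx6_add_right (a b c : V6 R) : cx6 a (b + c) = cx6 a b + cx6 a c := by
  apply V6_ext <;> simp [cx6, cx] <;> ring

theorem cx6_smul_left (r : R) (a c : V6 R) : cx6 (r • a) c = r • cx6 a c := by
  apply V6_ext <;> simp [cx6, cx] <;> ring

theorem cx6_smul_right (r : R) (a c : V6 R) : cx6 a (r • c) = r • cx6 a c := by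
  apply V6_ext <;> simp [cx6, cx] <;> ring

theorem cx6_anti (a c : V6 R) : cx6 a c = -cx6 c a := by
  apply V6_ext <;> simp [cx6, cx] <;> ring

theorem dt_addL (a b c : V R) : dt (a + b) c = dt a c + dt b c := by
  simp only [dt, Pi.add_apply]; ring

theorem dt_addR (a b c : V R) : dt a (b + c) = dt a b + dt a c := by
  simp only [dt, Pi.add_apply]; ring

theorem dt_smulL (r : R) (a c : V R) : dt (r • a) c = r * dt a c := by
  simp only [dt, Pi.smul_apply, smul_eq_mul]; ring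

theorem dt_smulR (r : R) (a c : V R) : dt a (r • c) = r * dt a c := by
  simp only [dt, Pi.smul_apply, smul_eq_mul]; ring

theorem dd_add1 (a b w w' : V6 R) : dd (a + b) w w' = dd a w w' + dd b w w' := by
  rw [dd, dd, dd, cx6_add_right]
  refine Prod.ext ?_ ?_
  · simp only [Prod.fst_sub, Prod.fst_add]; module
  · simp only [Prod.snd_sub, Prod.snd_add]; module

theorem dd_smul1 (r : R) (a w w' : V6 R) : dd (r • a) w w' = r • dd a w w' := by
  rw [dd, dd, cx6_smul_right]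
  refine Prod.ext ?_ ?_
  · simp only [Prod.fst_sub, Prod.smul_fst]; module
  · simp only [Prod.snd_sub, Prod.smul_snd]; module

theorem dd_add2 (a w v w' : V6 R) : dd a (w + v) w' = dd a w w' + dd a v w' := by
  rw [dd, dd, dd, cx6_add_right, cx6_add_left]
  refine Prod.ext ?_ ?_
  · simp only [Prod.fst_sub, Prod.fst_add, dt_addL]; module
  · simp only [Prod.snd_sub, Prod.snd_add, dt_addL]; module

theorem dd_smul2 (r : R) (a w w' : V6 R) : dd a (r • w) w' = r • dd a w w' := by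
  rw [dd, dd, cx6_smul_right, cx6_smul_left]
  refine Prod.ext ?_ ?_
  · simp only [Prod.fst_sub, Prod.smul_fst, dt_smulL]; module
  · simp only [Prod.snd_sub, Prod.smul_snd, dt_smulL]; module

theorem dd_add3 (a w w' v' : V6 R) : dd a w (w' + v') = dd a w w' + dd a w v' := by
  rw [dd, dd, dd, cx6_add_left, cx6_add_left]
  refine Prod.ext ?_ ?_
  · simp only [Prod.fst_sub, Prod.fst_add, dt_addR]; module
  · simp only [Prod.snd_sub, Prod.snd_add, dt_addR]; module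

theorem dd_smul3 (r : R) (a w w' : V6 R) : dd a w (r • w') = r • dd a w w' := by
  rw [dd, dd, cx6_smul_left, cx6_smul_left]
  refine Prod.ext ?_ ?_
  · simp only [Prod.fst_sub, Prod.smul_fst, dt_smulR]; module
  · simp only [Prod.snd_sub, Prod.smul_snd, dt_smulR]; module

theorem gr_add (φ ψ : V6 R → R) : gr (fun w => φ w + ψ w) = gr φ + gr ψ := by
  apply V6_ext <;> simp [gr]

theorem gr_smul (r : R) (φ : V6 R → R) : gr (fun w => r * φ w) = r • gr φ := by
  apply V6_ext <;> simp [gr]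

section law

variable (K0 : V6 R →ₗ[R] V6 R) (K1 : V6 R →ₗ[R] V6 R →ₗ[R] V6 R)
  (K2 : V6 R →ₗ[R] V6 R →ₗ[R] V6 R →ₗ[R] V6 R)

/-- the functions given by linear maps -/
def f0 : V6 R → V6 R := fun a => K0 a
/-- the functions given by linear maps -/
def f1 : V6 R → V6 R → V6 R := fun a b => K1 a b
/-- the functions given by linear maps -/
def f2 : V6 R → V6 R → V6 R → V6 R := fun a b c => K2 a b c

/-- second order term -/
def T2 (a b c d : V6 R) : R :=
  g2 (f0 K0) (f1 K1) (f2 K2) c d (K0 a) (K0 b) + g1 (f0 K0) (f1 K1) c d (gk (f0 K0) (f1 K1) b (K0 a))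

/-- first order term -/
def T1 (c d c' d' : V6 R) : R :=
  dt6 (gr (g1 (f0 K0) (f1 K1) c d)) (K0 (gr (g1 (f0 K0) (f1 K1) c' d')))

/-- bracket -/
def BB (a b : V6 R) : V6 R :=
  gk (f0 K0) (f1 K1) b (K0 a) - gk (f0 K0) (f1 K1) a (K0 b) + (2 : R) • cx6 (K0 a) (K0 b)

theorem PM4_T (α β Γ : V6 R) : PM4 (f0 K0) (f1 K1) (f2 K2) α β Γ =
    2 * T2 K0 K1 K2 α α β β + 2 * T2 K0 K1 K2 β β α α -
      2 * (T2 K0 K1 K2 α β α β + T2 K0 K1 K2 β α α β) -
      T1 K0 K1 α α β β + T1 K0 K1 α β α β +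
      3 * (dt6 Γ (K0 Γ) - 2 * dt6 Γ (BB K0 K1 α β)) := rfl

theorem g1_lin1 (c c' d w : V6 R) (p q : R) : g1 (f0 K0) (f1 K1) (p • c + q • c') d w =
    p * g1 (f0 K0) (f1 K1) c d w + q * g1 (f0 K0) (f1 K1) c' d w := by
  simp only [g1, cx6_add_left, cx6_smul_left, dt6_add_left, dt6_smul_left]; ring

theorem g1_lin2 (c d d' w : V6 R) (p q : R) : g1 (f0 K0) (f1 K1) c (p • d + q • d') w =
    p * g1 (f0 K0) (f1 K1) c d w + q * g1 (f0 K0) (f1 K1) c d' w := by
  simp only [g1, f0, f1, map_add, map_smul, cx6_add_left, cx6_smul_left, dt6_add_right,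
    dt6_smul_right]; ring

theorem g1_lin3 (c d w w' : V6 R) (p q : R) : g1 (f0 K0) (f1 K1) c d (p • w + q • w') =
    p * g1 (f0 K0) (f1 K1) c d w + q * g1 (f0 K0) (f1 K1) c d w' := by
  simp only [g1, f0, f1, map_add, map_smul, LinearMap.add_apply, LinearMap.smul_apply,
    cx6_add_right, cx6_smul_right, dt6_add_left, dt6_smul_left, dt6_add_right,
    dt6_smul_right]; ring

theorem g2_lin1 (c c' d w w' : V6 R) (p q : R) :
    g2 (f0 K0) (f1 K1) (f2 K2) (p • c + q • c') d w w' =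
    p * g2 (f0 K0) (f1 K1) (f2 K2) c d w w' + q * g2 (f0 K0) (f1 K1) (f2 K2) c' d w w' := by
  simp only [g2, dd_add1, dd_smul1, cx6_add_left, cx6_smul_left, dt6_add_left, dt6_smul_left]; ring

theorem g2_lin2 (c d d' w w' : V6 R) (p q : R) :
    g2 (f0 K0) (f1 K1) (f2 K2) c (p • d + q • d') w w' =
    p * g2 (f0 K0) (f1 K1) (f2 K2) c d w w' + q * g2 (f0 K0) (f1 K1) (f2 K2) c d' w w' := by
  simp only [g2, f0, f1, f2, map_add, map_smul, dd_add1, dd_smul1, cx6_add_left, cx6_smul_left,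
    dt6_add_right, dt6_smul_right]; ring

theorem g2_lin3 (c d w v w' : V6 R) (p q : R) :
    g2 (f0 K0) (f1 K1) (f2 K2) c d (p • w + q • v) w' =
    p * g2 (f0 K0) (f1 K1) (f2 K2) c d w w' + q * g2 (f0 K0) (f1 K1) (f2 K2) c d v w' := by
  simp only [g2, f0, f1, f2, map_add, map_smul, LinearMap.add_apply, LinearMap.smul_apply,
    dd_add2, dd_smul2, cx6_add_right, cx6_smul_right, dt6_add_left, dt6_smul_left,
    dt6_add_right, dt6_smul_right]; ring

theorem g2_lin4 (c d w w' v' : V6 R) (p q : R) :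
    g2 (f0 K0) (f1 K1) (f2 K2) c d w (p • w' + q • v') =
    p * g2 (f0 K0) (f1 K1) (f2 K2) c d w w' + q * g2 (f0 K0) (f1 K1) (f2 K2) c d w v' := by
  simp only [g2, f0, f1, f2, map_add, map_smul, LinearMap.add_apply, LinearMap.smul_apply,
    dd_add3, dd_smul3, cx6_add_right, cx6_smul_right, dt6_add_left, dt6_smul_left,
    dt6_add_right, dt6_smul_right]; ring

theorem gk_lin1 (d d' w : V6 R) (p q : R) : gk (f0 K0) (f1 K1) (p • d + q • d') w =
    p • gk (f0 K0) (f1 K1) d w + q • gk (f0 K0) (f1 K1) d' w := by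
  simp only [gk, f0, f1, map_add, map_smul, cx6_add_left, cx6_smul_left]; module

theorem gk_lin2 (d w w' : V6 R) (p q : R) : gk (f0 K0) (f1 K1) d (p • w + q • w') =
    p • gk (f0 K0) (f1 K1) d w + q • gk (f0 K0) (f1 K1) d w' := by
  simp only [gk, f0, f1, map_add, map_smul, LinearMap.add_apply, LinearMap.smul_apply,
    cx6_add_right, cx6_smul_right]; module

variable (p q : R)

theorem T2_lin1 (a a' b c d : V6 R) : T2 K0 K1 K2 (p • a + q • a') b c d =
    p * T2 K0 K1 K2 a b c d + q * T2 K0 K1 K2 a' b c d := by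
  simp only [T2, map_add, map_smul, g2_lin3, gk_lin2, g1_lin3]; ring

theorem T2_lin2 (a b b' c d : V6 R) : T2 K0 K1 K2 a (p • b + q • b') c d =
    p * T2 K0 K1 K2 a b c d + q * T2 K0 K1 K2 a b' c d := by
  simp only [T2, map_add, map_smul, g2_lin4, gk_lin1, g1_lin3]; ring

theorem T2_lin3 (a b c c' d : V6 R) : T2 K0 K1 K2 a b (p • c + q • c') d =
    p * T2 K0 K1 K2 a b c d + q * T2 K0 K1 K2 a b c' d := by
  simp only [T2, g2_lin1, g1_lin1]; ring

theorem T2_lin4 (a b c d d' : V6 R) : T2 K0 K1 K2 a b c (p • d + q • d') =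
    p * T2 K0 K1 K2 a b c d + q * T2 K0 K1 K2 a b c d' := by
  simp only [T2, g2_lin2, g1_lin2]; ring

theorem gr_lin1 (c c' d : V6 R) : gr (g1 (f0 K0) (f1 K1) (p • c + q • c') d) =
    p • gr (g1 (f0 K0) (f1 K1) c d) + q • gr (g1 (f0 K0) (f1 K1) c' d) := by
  have e : g1 (f0 K0) (f1 K1) (p • c + q • c') d = fun w =>
      p * g1 (f0 K0) (f1 K1) c d w + q * g1 (f0 K0) (f1 K1) c' d w :=
    funext fun w => g1_lin1 K0 K1 c c' d w p q
  rw [e, gr_add, gr_smul, gr_smul]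

theorem gr_lin2 (c d d' : V6 R) : gr (g1 (f0 K0) (f1 K1) c (p • d + q • d')) =
    p • gr (g1 (f0 K0) (f1 K1) c d) + q • gr (g1 (f0 K0) (f1 K1) c d') := by
  have e : g1 (f0 K0) (f1 K1) c (p • d + q • d') = fun w =>
      p * g1 (f0 K0) (f1 K1) c d w + q * g1 (f0 K0) (f1 K1) c d' w :=
    funext fun w => g1_lin2 K0 K1 c d d' w p q
  rw [e, gr_add, gr_smul, gr_smul]

theorem T1_lin1 (c c' d a b : V6 R) : T1 K0 K1 (p • c + q • c') d a b =
    p * T1 K0 K1 c d a b + q * T1 K0 K1 c' d a b := by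
  simp only [T1, gr_lin1, dt6_add_left, dt6_smul_left]

theorem T1_lin2 (c d d' a b : V6 R) : T1 K0 K1 c (p • d + q • d') a b =
    p * T1 K0 K1 c d a b + q * T1 K0 K1 c d' a b := by
  simp only [T1, gr_lin2, dt6_add_left, dt6_smul_left]

theorem T1_lin3 (c d a a' b : V6 R) : T1 K0 K1 c d (p • a + q • a') b =
    p * T1 K0 K1 c d a b + q * T1 K0 K1 c d a' b := by
  simp only [T1, gr_lin1, map_add, map_smul, dt6_add_right, dt6_smul_right]

theorem T1_lin4 (c d a b b' : V6 R) : T1 K0 K1 c d a (p • b + q • b') =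
    p * T1 K0 K1 c d a b + q * T1 K0 K1 c d a b' := by
  simp only [T1, gr_lin2, map_add, map_smul, dt6_add_right, dt6_smul_right]

theorem BB_lin1 (a a' b : V6 R) : BB K0 K1 (p • a + q • a') b =
    p • BB K0 K1 a b + q • BB K0 K1 a' b := by
  simp only [BB, map_add, map_smul, gk_lin1, gk_lin2, cx6_add_left, cx6_smul_left]; module

theorem BB_anti (a b : V6 R) : BB K0 K1 a b = -BB K0 K1 b a := by
  simp only [BB]; rw [cx6_anti (K0 b) (K0 a)]; module

theorem BB_lin2 (a b b' : V6 R) : BB K0 K1 a (p • b + q • b') =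
    p • BB K0 K1 a b + q • BB K0 K1 a b' := by
  rw [BB_anti, BB_lin1, BB_anti K0 K1 a b, BB_anti K0 K1 a b']; module

theorem BB_self [NoZeroDivisors R] [CharZero R] (a : V6 R) : BB K0 K1 a a = 0 := by
  have : cx6 (K0 a) (K0 a) = 0 := by
    apply V6_ext <;> simp [cx6, cx] <;> ring
  simp only [BB, this]; module

variable (hs0 : ∀ a b, dt6 a (K0 b) = dt6 b (K0 a)) (hs1 : ∀ w a b, dt6 a (K1 w b) = dt6 b (K1 w a))
  (hs2 : ∀ w w' a b, dt6 a (K2 w w' b) = dt6 b (K2 w w' a))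

include hs0 hs1

theorem g1_symm (c d w : V6 R) : g1 (f0 K0) (f1 K1) c d w = g1 (f0 K0) (f1 K1) d c w := by
  simp only [g1, f0, f1]
  rw [hs0 (cx6 c w) d, hs1 w c d, hs0 c (cx6 d w)]; ring

include hs2 in
theorem g2_symm (c d w w' : V6 R) : g2 (f0 K0) (f1 K1) (f2 K2) c d w w' =
    g2 (f0 K0) (f1 K1) (f2 K2) d c w w' := by
  simp only [g2, f0, f1, f2]
  rw [hs0 (dd c w w') d, hs1 w (cx6 c w') d, hs0 (cx6 c w') (cx6 d w), hs1 w' (cx6 c w) d,
    hs2 w w' c d, hs1 w' c (cx6 d w), hs0 (cx6 c w) (cx6 d w'), hs1 w c (cx6 d w'),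
    hs0 c (dd d w w')]
  ring

include hs2 in
theorem T2_symm (a b c d : V6 R) : T2 K0 K1 K2 a b c d = T2 K0 K1 K2 a b d c := by
  simp only [T2]
  rw [g2_symm K0 K1 K2 hs0 hs1 hs2, g1_symm K0 K1 hs0 hs1]

theorem T1_symm (a b c d : V6 R) : T1 K0 K1 a b c d = T1 K0 K1 c d a b := by
  simp only [T1]; rw [hs0]

theorem T1_symm' (a b c d : V6 R) : T1 K0 K1 a b c d = T1 K0 K1 b a c d := by
  have e : g1 (f0 K0) (f1 K1) a b = g1 (f0 K0) (f1 K1) b a :=
    funext fun w => g1_symm K0 K1 hs0 hs1 a b w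
  simp only [T1, e]

include hs2 in
/-- the `GL₂` law -/
theorem PM4_gl [NoZeroDivisors R] [CharZero R] (p' q' : R) (α β Γ : V6 R) :
    PM4 (f0 K0) (f1 K1) (f2 K2) (p • α + q • β) (p' • α + q' • β)
      ((p * q' - q * p') • Γ) = (p * q' - q * p') ^ 2 * PM4 (f0 K0) (f1 K1) (f2 K2) α β Γ := by
  have hB : BB K0 K1 (p • α + q • β) (p' • α + q' • β) = (p * q' - q * p') • BB K0 K1 α β := by
    rw [BB_lin1, BB_lin2, BB_lin2, BB_self, BB_self, BB_anti K0 K1 β α]; module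
  rw [PM4_T, PM4_T, hB]
  simp only [T2_lin1, T2_lin2, T2_lin3, T2_lin4, T1_lin1, T1_lin2, T1_lin3, T1_lin4,
    dt6_smul_left, dt6_smul_right, map_smul]
  have a1 := T2_symm K0 K1 K2 hs0 hs1 hs2 α α β α
  have a2 := T2_symm K0 K1 K2 hs0 hs1 hs2 α β β α
  have a3 := T2_symm K0 K1 K2 hs0 hs1 hs2 β α β α
  have a4 := T2_symm K0 K1 K2 hs0 hs1 hs2 β β β α
  have b1 : ∀ c d, T1 K0 K1 β α c d = T1 K0 K1 α β c d := fun c d =>
    T1_symm' K0 K1 hs0 hs1 _ _ _ _
  have b2 : ∀ c d, T1 K0 K1 c d β α = T1 K0 K1 c d α β := fun c d => by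
    rw [T1_symm K0 K1 hs0 hs1, b1, T1_symm K0 K1 hs0 hs1]
  have b3 := T1_symm K0 K1 hs0 hs1 β β α α
  have b4 := T1_symm K0 K1 hs0 hs1 α β α α
  have b5 := T1_symm K0 K1 hs0 hs1 β β α β
  rw [a1, a2, a3, a4]
  simp only [b1, b2]
  rw [b3, b4, b5]
  ring

end law

end H515HS
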